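import Pool.Agent.helper10.CH.SpecZ
import Pool.Agent.helper1.UNH.VHD

/-! Row chz:CZH of project CH (MP_2e0e07_nt), block Z. -/

set_option autoImplicit false

open NumberField Complex MeasureTheory NumberField.Units NumberField.Units.dirichletUnitTheorem

open scoped Classical

namespace Pool.Agent.UN

theorem CZH (hVHC : VHC_stmt) (hVLV : VLV_stmt) (hCZT : CZT_stmt) : CZH_stmt := by
  intro K _ _ e δ ε b σ β F hTF hF
  have hHM : HM ⊤ (tc K) := (hCZT K).2.1
  have hχ1 : ∀ I, ‖tc K I‖ ≤ 1 := by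
    intro I
    unfold tc
    split_ifs
    · simp
    · simp
  have hb : ∀ c, b c ≠ ⊥ := fun c => (hTF.rep c).choose
  have hχb : ∀ c, (starRingEnd ℂ) (tc K (b c)) = 1 := by
    intro c
    unfold tc
    rw [if_neg (hb c), map_one]
  have hN : ∀ c, 0 < Nm (b c) := by
    intro c
    unfold Nm
    have h1 : Ideal.absNorm (b c) ≠ 0 := fun h => hb c (Ideal.absNorm_eq_zero_iff.mp h)
    exact_mod_cast Nat.pos_of_ne_zero h1
  have hr : ∀ c, 0 < Nm (b c) ^ (-(2 / (Module.finrank ℚ K : ℝ))) := fun c => Real.rpow_pos_of_pos (hN c) _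
  have hδ : ∀ (ρ : ℝ) (l : logSpace K), δ * ∏ w : InfinitePlace K, ((Yl ρ l w : ℝ) : ℂ) ^ (ex (fun _ => 0) (aa (fun _ => 0) e) w) = δ := by
    intro ρ l
    rcases hTF.del with h | ⟨-, -, h, -⟩
    · rw [h, zero_mul]
    · have h1 : ∀ w : InfinitePlace K, ((Yl ρ l w : ℝ) : ℂ) ^ (ex (fun _ => 0) (aa (fun _ => 0) e) w) = 1 := by
        intro w
        have h2 : ex (fun _ => 0) (aa (fun _ => 0) e) w = 0 := by
          unfold ex aa
          simp [(h w).1]
        rw [h2, cpow_zero]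
      rw [Finset.prod_congr rfl fun w _ => h1 w, Finset.prod_const_one, mul_one]
  have hFfin : (volume : Measure (logSpace K)) F ≠ ⊤ := hF.bdd.measure_lt_top.ne
  obtain ⟨c₀, hc₀⟩ : ∃ c₀ : ℂ, c₀ = ∑ _c : ClassGroup (𝓞 K), ((volume : Measure (logSpace K)).real F : ℂ) * δ := ⟨_, rfl⟩
  have hEq : ∀ ρ : ℝ, 0 < ρ → Hh F δ b (tc K) (fun _ => 0) (aa (fun _ => 0) e) ρ - c₀ = ∑ c,
      ∫ l in F, Th0 (b c) (tc K) (fun _ => 0) (aa (fun _ => 0) e) (Yl (ρ * Nm (b c) ^ (-(2 / (Module.finrank ℚ K : ℝ)))) l) := by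
    intro ρ hρ
    rw [hc₀]
    unfold Hh
    have h1 : ∀ c, ∫ l in F, Th δ (b c) (tc K) (fun _ => 0) (aa (fun _ => 0) e) (Yl (ρ * Nm (b c) ^ (-(2 / (Module.finrank ℚ K : ℝ)))) l) =
        ((volume : Measure (logSpace K)).real F : ℂ) * δ +
          ∫ l in F, Th0 (b c) (tc K) (fun _ => 0) (aa (fun _ => 0) e) (Yl (ρ * Nm (b c) ^ (-(2 / (Module.finrank ℚ K : ℝ)))) l) := by
      intro c
      have hρc : 0 < ρ * Nm (b c) ^ (-(2 / (Module.finrank ℚ K : ℝ))) := mul_pos hρ (hr c)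
      have hI1 : IntegrableOn (fun _ : logSpace K => δ) F := integrableOn_const hFfin
      have hI2 := (hVHC K (b c) (tc K) (fun _ => 0) (aa (fun _ => 0) e) F (hb c) hχ1 hHM.bot hF).1 _ hρc
      have h2 : ∫ _l in F, δ = ((volume : Measure (logSpace K)).real F : ℂ) * δ := by
        rw [setIntegral_const]
        rfl
      rw [← h2, ← integral_add hI1 hI2]
      refine integral_congr_ae (Filter.Eventually.of_forall fun l => ?_)
      simp only [Th]
      rw [hχb, one_mul, hδ]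
    rw [Finset.sum_congr rfl fun c _ => h1 c, Finset.sum_add_distrib]
    ring
  refine ⟨c₀, ?_, hEq, ?_, ?_⟩
  · rcases hTF.del with h | ⟨-, -, h, -⟩
    · left
      rw [hc₀, h]
      simp
    · right
      exact fun w => (h w).1
  · have hc : ContinuousOn (fun ρ : ℝ => (∑ c,
        ∫ l in F, Th0 (b c) (tc K) (fun _ => 0) (aa (fun _ => 0) e) (Yl (ρ * Nm (b c) ^ (-(2 / (Module.finrank ℚ K : ℝ)))) l)) + c₀) (Set.Ioi 0) := by
      refine ContinuousOn.add (continuousOn_finsetSum _ fun c _ => ?_) continuousOn_const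
      have h1 := (hVHC K (b c) (tc K) (fun _ => 0) (aa (fun _ => 0) e) F (hb c) hχ1 hHM.bot hF).2.1
      exact h1.comp (continuousOn_id.mul continuousOn_const) fun ρ hρ => mul_pos hρ (hr c)
    refine hc.congr fun ρ hρ => ?_
    exact sub_eq_iff_eq_add.mp (hEq ρ hρ)
  · intro r
    have hO : (fun ρ : ℝ => ∑ c,
        ∫ l in F, Th0 (b c) (tc K) (fun _ => 0) (aa (fun _ => 0) e) (Yl (ρ * Nm (b c) ^ (-(2 / (Module.finrank ℚ K : ℝ)))) l))
        =O[Filter.atTop] (fun x : ℝ => x ^ r) := by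
      suffices key : ∀ c ∈ (Finset.univ : Finset (ClassGroup (𝓞 K))), (fun ρ : ℝ =>
          ∫ l in F, Th0 (b c) (tc K) (fun _ => 0) (aa (fun _ => 0) e) (Yl (ρ * Nm (b c) ^ (-(2 / (Module.finrank ℚ K : ℝ)))) l))
          =O[Filter.atTop] (fun x : ℝ => x ^ r) from
          (Asymptotics.IsBigO.sum key).congr_left (fun ρ => Finset.sum_apply ρ Finset.univ _)
      intro c _
      have h1 := (hVHC K (b c) (tc K) (fun _ => 0) (aa (fun _ => 0) e) F (hb c) hχ1 hHM.bot hF).2.2 r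
      have ht : Filter.Tendsto (fun ρ : ℝ => ρ * Nm (b c) ^ (-(2 / (Module.finrank ℚ K : ℝ)))) Filter.atTop Filter.atTop :=
        Filter.Tendsto.atTop_mul_const (hr c) Filter.tendsto_id
      have h2 := h1.comp_tendsto ht
      refine h2.trans ?_
      refine Asymptotics.IsBigO.of_bound ((Nm (b c) ^ (-(2 / (Module.finrank ℚ K : ℝ)))) ^ r) ?_
      filter_upwards [Filter.eventually_gt_atTop 0] with ρ hρ
      simp only [Function.comp]
      rw [Real.mul_rpow hρ.le (hr c).le, norm_mul, mul_comm, Real.norm_of_nonneg (Real.rpow_nonneg (hr c).le _)]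
    refine hO.congr' ?_ Filter.EventuallyEq.rfl
    filter_upwards [Filter.eventually_gt_atTop 0] with ρ hρ
    exact (hEq ρ hρ).symm

end Pool.Agent.UN
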