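import Pool.Agent.helper10.CH.SpecZ
import Pool.Agent.helper59.UNH.VML

/-! Row chz:CZM of project CH (MP_2e0e07_nt), block Z: the Mellin transform for the trivial character. -/

set_option autoImplicit false

open NumberField Complex MeasureTheory NumberField.Units NumberField.Units.dirichletUnitTheorem

open scoped Classical

namespace Pool.Agent.UN

theorem CZM (hTFE : TFE_stmt) (hVFX : VFX_stmt) (hVFE : VFE_stmt) (hCZH : CZH_stmt) (hVCL : VCL_stmt) (hVMC : VMC_stmt)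
    (hVID : VID_stmt) (hCZT : CZT_stmt) (hPRO : PRO_stmt) : CZM_stmt := by
  intro K _ _
  obtain ⟨hχ, hHM, -⟩ := hCZT K
  obtain ⟨χ, hχdef⟩ : ∃ χ : Ideal (𝓞 K) → ℂ, χ = tc K := ⟨_, rfl⟩
  obtain ⟨τ, hτ⟩ : ∃ τ : InfinitePlace K → ℝ, τ = fun _ => 0 := ⟨_, rfl⟩
  obtain ⟨m, hm⟩ : ∃ m : InfinitePlace K → ℤ, m = fun _ => 0 := ⟨_, rfl⟩
  obtain ⟨f, hf⟩ : ∃ f : Ideal (𝓞 K), f = ⊤ := ⟨_, rfl⟩
  have hχ2 : HCharG f χ τ m := by rw [hf, hχdef, hτ, hm]; exact hχ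
  obtain ⟨e, δ, ε, b, σ, β, t1, t2, t3, t4, t5, t6, t7, t8⟩ := hTFE K f χ τ m hχ2
  have hTF : TF f χ τ m e δ ε b σ β := ⟨t1, t2, t3, t4, t5, t6, t7, t8⟩
  obtain ⟨F, hF⟩ := hVFX K
  obtain ⟨κ₀, hκ⟩ := hVCL K
  obtain ⟨p1, -, p2, -, -, p3, -⟩ := hPRO K
  have hTF' : TF ⊤ (tc K) (fun _ => 0) (fun _ => 0) e δ ε b σ β := by
    rw [← hf, ← hχdef, ← hτ, ← hm]; exact hTF
  obtain ⟨c₀, v0, v1, v2, v3⟩ := hCZH K e δ ε b σ β F hTF' hF
  rw [← hχdef, ← hτ, ← hm] at v1 v2 v3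
  have hn : (0 : ℝ) < (Module.finrank ℚ K : ℝ) := by exact_mod_cast p1
  have hNt : Nm f = 1 := by
    rw [hf]
    unfold Nm
    rw [Ideal.absNorm_top]
    norm_num
  have hDN : Dc K * Nm f = Dc K := by rw [hNt, mul_one]
  have hq : 0 < Dc K := by linarith
  obtain ⟨n, hndef⟩ : ∃ n : ℝ, n = (Module.finrank ℚ K : ℝ) := ⟨_, rfl⟩
  obtain ⟨q, hqdef⟩ : ∃ q : ℝ, q = Dc K := ⟨_, rfl⟩
  obtain ⟨A, hAdef⟩ : ∃ A : ℝ, A = q ^ (-(1 / n)) := ⟨_, rfl⟩
  rw [← hndef] at hn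
  rw [← hqdef] at hq
  have hA : 0 < A := by
    rw [hAdef]
    exact Real.rpow_pos_of_pos hq _
  have hT : (0 : ℝ) < (torsionOrder K : ℝ) := by exact_mod_cast torsionOrder_pos K
  refine ⟨e, ε, c₀, torsionOrder K * κ₀, fun r => Hh F δ b χ τ (aa m e) (A * r), t4, t5, v0, t3, mul_pos hT hκ.1, ?_, ?_, ?_, ?_⟩
  · exact v2.comp (continuous_const.mul continuous_id).continuousOn fun x hx => mul_pos hA hx
  · intro r
    have h1 : Filter.Tendsto (fun x : ℝ => A * x) Filter.atTop Filter.atTop :=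
      Filter.Tendsto.const_mul_atTop hA Filter.tendsto_id
    have h2 := (v3 r).comp_tendsto h1
    have h3 : ((fun x : ℝ => x ^ r) ∘ fun x : ℝ => A * x) =ᶠ[Filter.atTop] fun x : ℝ => A ^ r * x ^ r := by
      filter_upwards [Filter.eventually_gt_atTop 0] with x hx
      exact Real.mul_rpow hA.le hx.le
    exact (h2.trans_eventuallyEq h3).trans (Asymptotics.isBigO_const_mul_self _ _ _)
  · intro x hx
    have hρ : 0 < A * (1 / x) := by positivity
    have h1 := hVFE K f χ τ m e δ ε b σ β F hχ2 hTF hF (A * (1 / x)) hρ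
    rw [hDN, ← hndef, ← hqdef] at h1
    have h2 : q ^ (-(1 / 2 : ℝ)) * (A * (1 / x)) ^ (-(n / 2)) = x ^ (n / 2) := by
      rw [Real.mul_rpow hA.le (by positivity), hAdef, ← Real.rpow_mul hq.le, one_div x, Real.inv_rpow hx.le,
        Real.rpow_neg hx.le, inv_inv, ← mul_assoc, ← Real.rpow_add hq]
      have h3 : -(1 / 2 : ℝ) + -(1 / n) * -(n / 2) = 0 := by
        field_simp
        ring
      rw [h3, Real.rpow_zero, one_mul]
    have h4 : 1 / (A * (1 / x) * q ^ (2 / n)) = A * x := by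
      have h5 : A * q ^ (2 / n) * A = 1 := by
        rw [hAdef, ← Real.rpow_add hq, ← Real.rpow_add hq]
        have h3 : -(1 / n) + 2 / n + -(1 / n) = 0 := by ring
        rw [h3, Real.rpow_zero]
      have h6 : 0 < q ^ (2 / n) := Real.rpow_pos_of_pos hq _
      rw [div_eq_iff (by positivity)]
      field_simp
      linarith
    show Hh F δ b χ τ (aa m e) (A * (1 / x)) = ε * ((x ^ ((Module.finrank ℚ K : ℝ) / 2) : ℝ) : ℂ) *
      (starRingEnd ℂ) (Hh F δ b χ τ (aa m e) (A * x))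
    rw [h1, h2, h4, ← hndef]
  · intro s hs
    have hHM' : HM f χ := by rw [hf, hχdef]; exact hHM
    obtain ⟨i1, i2⟩ := hVID K f χ b s hHM' t1 t2 hs
    have hs0 : 0 < s.re := by linarith
    have hχb : ∀ c, (starRingEnd ℂ) (χ (b c)) = 1 := by
      intro c
      rw [hχdef]
      unfold tc
      rw [if_neg (t1 c).1, map_one]
    have hc : ∀ c : ClassGroup (𝓞 K), MellinConvergent (fun ρ : ℝ => ∫ l in F, Th0 (b c) χ τ (aa m e) (Yl ρ l)) ((n : ℂ) * s / 2) ∧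
        mellin (fun ρ : ℝ => ∫ l in F, Th0 (b c) χ τ (aa m e) (Yl ρ l)) ((n : ℂ) * s / 2) =
          (torsionOrder K : ℂ) * (κ₀ * gf τ (aa m e) s) *
            ∑' I : Pr (b c), χ (I : Ideal (𝓞 K)) * (Nm (I : Ideal (𝓞 K)) : ℂ) ^ (-s) := by
      intro c
      have h1 := hVMC K κ₀ (b c) χ τ (aa m e) F s hκ hF (t1 c).1 (VML_le hHM') hHM'.bot hs0 (i1 c)
      have h2 : ((Module.finrank ℚ K : ℕ) : ℂ) = (n : ℂ) := by
        rw [hndef]
        push_cast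
        rfl
      rw [h2] at h1
      exact h1
    have hN : ∀ c : ClassGroup (𝓞 K), 0 < Nm (b c) := fun c => by linarith [p3 (b c) (t1 c).1]
    have hp := fun c : ClassGroup (𝓞 K) => VML_part _ ((starRingEnd ℂ) (χ (b c))) (Nm (b c)) n (hN c) hn s (hc c).1
    have h3 : mellin (fun ρ : ℝ => Hh F δ b χ τ (aa m e) ρ - c₀) ((n : ℂ) * s / 2) =
        mellin (fun ρ : ℝ => ∑ c, (starRingEnd ℂ) (χ (b c)) *
          (fun ρ : ℝ => ∫ l in F, Th0 (b c) χ τ (aa m e) (Yl ρ l)) (ρ * Nm (b c) ^ (-(2 / n)))) ((n : ℂ) * s / 2) := by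
      unfold mellin
      refine setIntegral_congr_fun measurableSet_Ioi fun ρ hρ => ?_
      have h4 := v1 ρ hρ
      rw [← hndef] at h4
      show (ρ : ℂ) ^ ((n : ℂ) * s / 2 - 1) • (Hh F δ b χ τ (aa m e) ρ - c₀) = _
      rw [h4]
      congr 1
      refine Finset.sum_congr rfl fun c _ => ?_
      rw [hχb, one_mul]
    rw [VML_sum _ _ _ (fun c _ => (hp c).1)] at h3
    have h5 : mellin (fun r : ℝ => Hh F δ b χ τ (aa m e) (A * r) - c₀) ((n : ℂ) * s / 2) =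
        (q : ℂ) ^ (s / 2) * mellin (fun ρ : ℝ => Hh F δ b χ τ (aa m e) ρ - c₀) ((n : ℂ) * s / 2) := by
      rw [mellin_comp_mul_left (fun ρ : ℝ => Hh F δ b χ τ (aa m e) ρ - c₀) _ hA, smul_eq_mul, hAdef, VML_cp q _ hq]
      congr 2
      have hn0 : (n : ℂ) ≠ 0 := by exact_mod_cast hn.ne'
      push_cast
      field_simp
    have h6 : ((Module.finrank ℚ K : ℕ) : ℂ) = (n : ℂ) := by
      rw [hndef]
      push_cast
      rfl
    rw [← hχdef, ← hτ, ← hm, h6, ← hqdef, h5, h3, ← i2, Finset.mul_sum, Finset.mul_sum]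
    refine Finset.sum_congr rfl fun c _ => ?_
    rw [(hp c).2, (hc c).2]
    push_cast
    ring

end Pool.Agent.UN
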