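import Pool.Agent.helper10.CH.SpecZ
import Pool.Agent.helper25.UNH.LMM

/-! Row chz:CZW of project CH (MP_2e0e07_nt), block Z: Mellin transform with constant terms (weak functional equation pair). -/

set_option autoImplicit false

open NumberField Complex

namespace Pool.Agent.UN

noncomputable section

open MeasureTheory Set in
/-- The weak FE-pair of `h` and its conjugate. -/
def CZW_P (h : ℝ → ℂ) (k : ℝ) (ε c₀ : ℂ) (hk : 0 < k) (hε : ‖ε‖ = 1) (hc : ContinuousOn h (Ioi 0))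
    (hd : ∀ r : ℝ, (fun x => h x - c₀) =O[Filter.atTop] (fun x : ℝ => x ^ r))
    (he : ∀ x : ℝ, 0 < x → h (1 / x) = ε * ((x ^ k : ℝ) : ℂ) * (starRingEnd ℂ) (h x)) : WeakFEPair ℂ where
  f := h
  g := fun x => (starRingEnd ℂ) (h x)
  k := k
  ε := ε
  f₀ := c₀
  g₀ := (starRingEnd ℂ) c₀
  hf_int := hc.locallyIntegrableOn measurableSet_Ioi
  hg_int := (Complex.continuous_conj.comp_continuousOn hc).locallyIntegrableOn measurableSet_Ioi
  hk := hk
  hε := by
    intro h0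
    rw [h0, norm_zero] at hε
    exact zero_ne_one hε
  h_feq := by
    intro x hx
    rw [he x hx, smul_eq_mul]
  hf_top := hd
  hg_top := by
    intro r
    refine Asymptotics.IsBigO.trans ?_ (hd r)
    refine Asymptotics.IsBigO.of_bound 1 (Filter.Eventually.of_forall fun x => ?_)
    rw [← map_sub, RCLike.norm_conj, one_mul]

theorem CZW_inv (ε : ℂ) (hε : ‖ε‖ = 1) : ε⁻¹ = (starRingEnd ℂ) ε := by
  rw [Complex.inv_def, Complex.normSq_eq_norm_sq, hε]
  simp

open MeasureTheory Set in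
theorem CZW : CZW_stmt := by
  intro h k ε c₀ hk hε hc hd he
  obtain ⟨P, hP⟩ : ∃ P : WeakFEPair ℂ, P = CZW_P h k ε c₀ hk hε hc hd he := ⟨_, rfl⟩
  have hPf : P.f = h := by rw [hP]; rfl
  have hPk : P.k = k := by rw [hP]; rfl
  have hPε : P.ε = ε := by rw [hP]; rfl
  have hPf0 : P.f₀ = c₀ := by rw [hP]; rfl
  have hPg : P.g = fun x => (starRingEnd ℂ) (h x) := by rw [hP]; rfl
  have hPg0 : P.g₀ = (starRingEnd ℂ) c₀ := by rw [hP]; rfl
  have hεε : ε * (starRingEnd ℂ) ε = 1 := by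
    rw [← CZW_inv ε hε, mul_inv_cancel₀]
    intro h0
    rw [h0, norm_zero] at hε
    exact zero_ne_one hε
  have hmod : ∀ x : ℝ, P.symm.f_modif x = (starRingEnd ℂ) (P.f_modif x) := by
    intro x
    unfold WeakFEPair.f_modif
    simp only [WeakFEPair.symm_f, WeakFEPair.symm_f₀, WeakFEPair.symm_ε, WeakFEPair.symm_k, WeakFEPair.symm_g₀, Pi.add_apply, map_add]
    rw [hPf, hPg, hPf0, hPg0, hPk, hPε, CZW_inv ε hε]
    congr 1
    · by_cases hx : x ∈ Ioi (1 : ℝ)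
      · rw [indicator_of_mem hx, indicator_of_mem hx, map_sub]
      · rw [indicator_of_notMem hx, indicator_of_notMem hx, map_zero]
    · by_cases hx : x ∈ Ioo (0 : ℝ) 1
      · rw [indicator_of_mem hx, indicator_of_mem hx, map_sub]
        simp only [smul_eq_mul, map_mul, Complex.conj_conj, Complex.conj_ofReal]
      · rw [indicator_of_notMem hx, indicator_of_notMem hx, map_zero]
  have hsymm : ∀ s : ℂ, P.symm.Λ₀ s = (starRingEnd ℂ) (P.Λ₀ ((starRingEnd ℂ) s)) := by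
    intro s
    have h1 : P.symm.Λ₀ s = mellin (fun x : ℝ => (starRingEnd ℂ) (P.f_modif x)) s := by
      unfold WeakFEPair.Λ₀
      congr 1
      funext x
      exact hmod x
    rw [h1, LMM_conj]
    rfl
  have hFE : ∀ z : ℂ, P.Λ₀ z = ε * (starRingEnd ℂ) (P.Λ₀ (k - (starRingEnd ℂ) z)) := by
    intro z
    have h1 := P.functional_equation₀ (k - z)
    rw [hsymm, hPk, hPε, smul_eq_mul, sub_sub_cancel, map_sub, Complex.conj_ofReal] at h1
    exact h1
  have hconv : ∀ s : ℂ, MellinConvergent P.f_modif s := fun s => (P.isStrongFEPair_toStrongFEPair.hasMellin s).1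
  have hbd : ∀ A : ℝ, ∃ M : ℝ, ∀ z : ℂ, |z.re| ≤ A → ‖P.Λ₀ z‖ ≤ M := by
    intro A
    refine ⟨∫ t in Ioi (0 : ℝ), (‖(t : ℂ) ^ ((A : ℂ) - 1) • P.f_modif t‖ +
      ‖(t : ℂ) ^ (((-A : ℝ) : ℂ) - 1) • P.f_modif t‖), ?_⟩
    intro s hs
    unfold WeakFEPair.Λ₀ mellin
    apply norm_integral_le_of_norm_le
    · exact (hconv (A : ℂ)).norm.add (hconv ((-A : ℝ) : ℂ)).norm
    · rw [ae_restrict_iff' measurableSet_Ioi]
      apply Filter.Eventually.of_forall
      intro t ht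
      have ht0 : 0 < t := ht
      obtain ⟨h1, h2⟩ := abs_le.1 hs
      rw [norm_smul, norm_smul, norm_smul, Complex.norm_cpow_eq_rpow_re_of_pos ht0,
        Complex.norm_cpow_eq_rpow_re_of_pos ht0, Complex.norm_cpow_eq_rpow_re_of_pos ht0, ← add_mul]
      apply mul_le_mul_of_nonneg_right _ (norm_nonneg _)
      simp only [Complex.sub_re, Complex.one_re, Complex.ofReal_re]
      have p1 : 0 < t ^ (A - 1) := Real.rpow_pos_of_pos ht0 _
      have p2 : 0 < t ^ (-A - 1) := Real.rpow_pos_of_pos ht0 _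
      rcases le_total 1 t with h3 | h3
      · have := Real.rpow_le_rpow_of_exponent_le h3 (show s.re - 1 ≤ A - 1 by linarith)
        linarith
      · have := Real.rpow_le_rpow_of_exponent_ge ht0 h3 (show -A - 1 ≤ s.re - 1 by linarith)
        linarith
  refine ⟨fun z => z * (k - z) * P.Λ₀ z - (k - z) * c₀ - z * (ε * (starRingEnd ℂ) c₀), ?_, ?_, ?_, ?_, ?_⟩
  · have h1 := P.differentiable_Λ₀
    fun_prop
  · intro h0
    simp [h0]
  · intro z
    show z * (k - z) * P.Λ₀ z - (k - z) * c₀ - z * (ε * (starRingEnd ℂ) c₀) = ε * (starRingEnd ℂ)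
      ((k - (starRingEnd ℂ) z) * (k - (k - (starRingEnd ℂ) z)) * P.Λ₀ (k - (starRingEnd ℂ) z) -
        (k - (k - (starRingEnd ℂ) z)) * c₀ - (k - (starRingEnd ℂ) z) * (ε * (starRingEnd ℂ) c₀))
    rw [hFE z]
    simp only [map_sub, map_mul, Complex.conj_conj, Complex.conj_ofReal]
    linear_combination (k - z) * c₀ * hεε
  · intro A
    obtain ⟨M₀, hM₀⟩ := hbd A
    refine ⟨(|A| + 1) * (k + |A| + 1) * |M₀| + (k + |A| + 1) * ‖c₀‖ + (|A| + 1) * ‖c₀‖, ?_⟩
    intro z hz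
    obtain ⟨T, hT⟩ : ∃ T : ℝ, T = 1 + |z.im| := ⟨_, rfl⟩
    have hT1 : 1 ≤ T := by rw [hT]; linarith [abs_nonneg z.im]
    have hT2 : T ≤ T ^ 2 := by nlinarith
    have hA0 : 0 ≤ |A| := abs_nonneg A
    have hzn : ‖z‖ ≤ (|A| + 1) * T := by
      have h1 := Complex.norm_le_abs_re_add_abs_im z
      have h2 : |z.re| ≤ |A| := hz.trans (le_abs_self A)
      have h3 : |z.im| ≤ T := by rw [hT]; linarith
      nlinarith
    have hkz : ‖(k : ℂ) - z‖ ≤ (k + |A| + 1) * T := by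
      have h1 := norm_sub_le (k : ℂ) z
      rw [Complex.norm_real, Real.norm_of_nonneg hk.le] at h1
      nlinarith
    rw [← hT]
    have h1 : ‖z * (k - z) * P.Λ₀ z‖ ≤ (|A| + 1) * (k + |A| + 1) * |M₀| * T ^ 2 := by
      rw [norm_mul, norm_mul]
      have h2 : ‖P.Λ₀ z‖ ≤ |M₀| := (hM₀ z hz).trans (le_abs_self M₀)
      calc ‖z‖ * ‖(k : ℂ) - z‖ * ‖P.Λ₀ z‖ ≤ ((|A| + 1) * T) * ((k + |A| + 1) * T) * |M₀| := by gcongr
        _ = _ := by ring
    have h2 : ‖((k : ℂ) - z) * c₀‖ ≤ (k + |A| + 1) * ‖c₀‖ * T ^ 2 := by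
      rw [norm_mul]
      calc ‖(k : ℂ) - z‖ * ‖c₀‖ ≤ ((k + |A| + 1) * T ^ 2) * ‖c₀‖ :=
            mul_le_mul_of_nonneg_right (hkz.trans (mul_le_mul_of_nonneg_left hT2 (by linarith))) (norm_nonneg _)
        _ = _ := by ring
    have h3 : ‖z * (ε * (starRingEnd ℂ) c₀)‖ ≤ (|A| + 1) * ‖c₀‖ * T ^ 2 := by
      rw [norm_mul, norm_mul, hε, one_mul, RCLike.norm_conj]
      calc ‖z‖ * ‖c₀‖ ≤ ((|A| + 1) * T ^ 2) * ‖c₀‖ :=
            mul_le_mul_of_nonneg_right (hzn.trans (mul_le_mul_of_nonneg_left hT2 (by linarith))) (norm_nonneg _)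
        _ = _ := by ring
    calc ‖z * (k - z) * P.Λ₀ z - (k - z) * c₀ - z * (ε * (starRingEnd ℂ) c₀)‖
        ≤ ‖z * (k - z) * P.Λ₀ z‖ + ‖((k : ℂ) - z) * c₀‖ + ‖z * (ε * (starRingEnd ℂ) c₀)‖ :=
          (norm_sub_le _ _).trans (add_le_add (norm_sub_le _ _) le_rfl)
      _ ≤ _ := by linarith
  · intro z hz
    have h1 := (P.hasMellin (s := z) (by rw [hPk]; exact hz)).2
    rw [hPf, hPf0] at h1
    rw [h1]
    unfold WeakFEPair.Λ
    rw [hPk, hPε, hPf0, hPg0, smul_eq_mul, smul_eq_mul]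
    have hz0 : z ≠ 0 := by
      intro h0
      rw [h0, Complex.zero_re] at hz
      linarith
    have hzk : (k : ℂ) - z ≠ 0 := by
      intro h0
      have h2 := congrArg Complex.re h0
      rw [Complex.sub_re, Complex.ofReal_re, Complex.zero_re] at h2
      linarith
    field_simp

end

end Pool.Agent.UN
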