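import Pool.Agent.helper82.CH.Ort

/-! Row che:ZFA of project CH (MP_2e0e07_nt), stage 2: at most one zero very near `1`. -/

set_option autoImplicit false

open Complex

namespace Pool.Agent.CHE

theorem ZFA_summ {Y : Type} [CommGroup Y] [Fintype Y] {C l : ℝ} {b : Y → ℕ → ℝ} {E : (Y →* ℂˣ) → ℂ → ℂ}
    (h : Sys C l b E) (χ : Y →* ℂˣ) (s : ℂ) (hs : 1 < s.re) : LSeriesSummable (ak b χ) s := by
  have h1 : LSeriesSummable (fun k : ℕ => ((VM k : ℝ) : ℂ)) s := ArithmeticFunction.LSeriesSummable_vonMangoldt hs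
  have h2 : LSeriesSummable ((C : ℂ) • fun k : ℕ => ((VM k : ℝ) : ℂ)) s := h1.smul (C : ℂ)
  refine Summable.of_norm_bounded h2.norm fun k => LSeries.norm_term_le s ?_
  have h3 := (ORT_aknorm b h.nonneg χ k).trans (h.bd k)
  rw [Pi.smul_apply, smul_eq_mul, norm_mul, Complex.norm_real, Complex.norm_real, Real.norm_eq_abs, Real.norm_eq_abs]
  have h4 : C * VM k ≤ |C| * |VM k| := by
    rw [← abs_mul]
    exact le_abs_self _
  exact h3.trans h4

theorem ZFA_nonneg (a : ℕ → ℝ) (ha : ∀ k, 0 ≤ a k) (x : ℝ) : 0 ≤ (LSeries (fun k => (a k : ℂ)) (x : ℂ)).re := by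
  have h1 : LSeries (fun k => (a k : ℂ)) (x : ℂ) = ((∑' n : ℕ, (if n = 0 then 0 else a n / (n : ℝ) ^ x) : ℝ) : ℂ) := by
    rw [Complex.ofReal_tsum]
    unfold LSeries
    refine tsum_congr fun n => ?_
    rw [LSeries.term_def]
    split_ifs with hn
    · simp
    · rw [Complex.ofReal_div, Complex.ofReal_cpow (Nat.cast_nonneg n), Complex.ofReal_natCast]
  rw [h1, Complex.ofReal_re]
  refine tsum_nonneg fun n => ?_
  split_ifs
  · exact le_rfl
  · exact div_nonneg (ha n) (Real.rpow_nonneg (Nat.cast_nonneg n) x)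

theorem ZFA_MM (C l : ℝ) (hC : 1 ≤ C) (hl : 1 ≤ l) : MM C l 40 ≤ 661 * (C * l) := by
  unfold MM
  have h1 : Real.log (70 + 40) ≤ 5 := by
    rw [Real.log_le_iff_le_exp (by norm_num)]
    have h2 : (2.7 : ℝ) ≤ Real.exp 1 := by
      have := Real.exp_one_gt_d9
      linarith
    calc (70 + 40 : ℝ) ≤ (2.7 : ℝ) ^ 5 := by norm_num
      _ ≤ Real.exp 1 ^ 5 := by gcongr
      _ = Real.exp 5 := by rw [← Real.exp_nat_mul]; norm_num
  have h3 : C * (70 + 40) * (l + Real.log (70 + 40)) ≤ C * (70 + 40) * (l + 5 * l) := by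
    gcongr
    linarith
  nlinarith

theorem ZFA_re (s ρ : ℂ) (d : ℝ) (hd : 0 < d) (h1 : d ≤ (s - ρ).re) : 0 ≤ (1 / (s - ρ)).re := by
  rw [one_div, Complex.inv_re]
  exact div_nonneg (hd.le.trans h1) (Complex.normSq_nonneg _)

theorem ZFA_re2 (s ρ : ℂ) (d : ℝ) (hd : 0 < d) (h1 : d ≤ (s - ρ).re) (h2 : ‖s - ρ‖ ≤ 11 / 10 * d) :
    4 / 5 * (1 / d) ≤ (1 / (s - ρ)).re := by
  rw [one_div (s - ρ), Complex.inv_re, Complex.normSq_eq_norm_sq]
  have h3 : 0 < ‖s - ρ‖ := lt_of_lt_of_le (lt_of_lt_of_le hd h1) (Complex.re_le_norm _)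
  rw [le_div_iff₀ (by positivity)]
  have h4 : ‖s - ρ‖ ^ 2 ≤ (11 / 10 * d) ^ 2 := pow_le_pow_left₀ h3.le h2 2
  calc 4 / 5 * (1 / d) * ‖s - ρ‖ ^ 2 ≤ 4 / 5 * (1 / d) * (11 / 10 * d) ^ 2 :=
        mul_le_mul_of_nonneg_left h4 (by positivity)
    _ = 4 / 5 * (121 / 100) * d := by field_simp; norm_num
    _ ≤ d := by linarith
    _ ≤ (s - ρ).re := h1

theorem ZFA : ZFA_stmt := by
  intro q C
  obtain ⟨C', hC'⟩ : ∃ C' : ℝ, C' = max C 1 := ⟨_, rfl⟩
  have hC1 : 1 ≤ C' := by rw [hC']; exact le_max_right _ _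
  have hCC : C ≤ C' := by rw [hC']; exact le_max_left _ _
  obtain ⟨η, hη⟩ : ∃ η : ℝ, η = 1 / (2000 * ((q : ℝ) + 1) * C') := ⟨_, rfl⟩
  have hq0 : (0 : ℝ) ≤ q := Nat.cast_nonneg q
  have hη0 : 0 < η := by rw [hη]; positivity
  have hη1 : η ≤ 1 := by
    rw [hη, div_le_one (by positivity)]
    nlinarith
  refine ⟨η / 10, by positivity, by linarith, ?_⟩
  intro Y _ _ l b E N ρ hY hS hL p p' hp hp'
  by_contra hne
  have hl := hS.l1
  have hl0 : 0 < l := by linarith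
  obtain ⟨δ, hδ⟩ : ∃ δ : ℝ, δ = η / l := ⟨_, rfl⟩
  have hδ0 : 0 < δ := by rw [hδ]; positivity
  have hδ1 : δ ≤ 1 := by
    rw [hδ, div_le_one hl0]
    linarith
  obtain ⟨s, hs⟩ : ∃ s : ℂ, s = ((1 + δ : ℝ) : ℂ) := ⟨_, rfl⟩
  have hsre : s.re = 1 + δ := by rw [hs, Complex.ofReal_re]
  have hs1 : 1 < s.re := by rw [hsre]; linarith
  have hs1' : s - 1 = ((δ : ℝ) : ℂ) := by rw [hs]; push_cast; ring
  have hdist : ‖s - (2 + ((0 : ℝ) : ℂ) * I)‖ ≤ 40 / 4 := by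
    have h1 : s - (2 + ((0 : ℝ) : ℂ) * I) = (((δ - 1 : ℝ)) : ℂ) := by
      rw [hs]
      push_cast
      ring
    rw [h1, Complex.norm_real, Real.norm_eq_abs, abs_le]
    constructor <;> linarith
  have hMM := ZFA_MM C l hS.C1 hl
  have hdre : ∀ (χ : Y →* ℂˣ) (i : Fin (N χ)), δ ≤ (s - ρ χ i).re := by
    intro χ i
    have h1 := (hL χ).re1 i
    rw [Complex.sub_re, hsre]
    linarith
  -- one character
  have hone : ∀ χ : Y →* ℂˣ, (LSeries (ak b χ) s).re ≤ (dl χ / ((δ : ℝ) : ℂ)).re - ∑ i, (1 / (s - ρ χ i)).re + 794 * (C * l) := by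
    intro χ
    have h1 := (hL χ).form s hs1 hdist 0
    have h2 : (fun k : ℕ => ak b χ k * ((Real.log k : ℂ) ^ 0 / ((Nat.factorial 0 : ℕ) : ℂ))) = ak b χ := by
      funext k
      simp
    rw [h2, hs1'] at h1
    simp only [zero_add, pow_one, Nat.cast_zero, mul_one] at h1
    have h3 := (Complex.re_le_norm _).trans h1
    rw [Complex.add_re, Complex.sub_re, Complex.re_sum] at h3
    have h4 : 6 * MM C l 40 * (8 / 40) ≤ 794 * (C * l) := by
      have h5 : 0 < C * l := by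
        have := hS.C1
        positivity
      linarith
    linarith
  have hsum := Finset.sum_le_sum (fun χ (_ : χ ∈ (Finset.univ : Finset (Y →* ℂˣ))) => hone χ)
  have hpos : 0 ≤ ∑ χ : Y →* ℂˣ, (LSeries (ak b χ) s).re := by
    rw [← Complex.re_sum, ← LSeries_sum fun χ _ => ZFA_summ hS χ s hs1]
    have h1 : (∑ χ : Y →* ℂˣ, ak b χ) = fun k : ℕ => (((Fintype.card Y : ℝ) * b 1 k : ℝ) : ℂ) := by
      funext k
      rw [Finset.sum_apply, ORT_ak]
      push_cast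
      rfl
    rw [h1, hs]
    exact ZFA_nonneg _ (fun k => mul_nonneg (Nat.cast_nonneg _) (hS.nonneg 1 k)) _
  rw [Finset.sum_add_distrib, Finset.sum_sub_distrib] at hsum
  have hdl : ∑ χ : Y →* ℂˣ, (dl χ / ((δ : ℝ) : ℂ)).re = 1 / δ := by
    rw [← Complex.re_sum, ← Finset.sum_div]
    have h1 : ∑ χ : Y →* ℂˣ, dl χ = 1 := by
      unfold dl
      rw [Finset.sum_ite_eq' Finset.univ (1 : Y →* ℂˣ) (fun _ => (1 : ℂ))]
      simp
    rw [h1, ← Complex.ofReal_one, ← Complex.ofReal_div, Complex.ofReal_re]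
  have hcard : ∑ _χ : Y →* ℂˣ, 794 * (C * l) ≤ 794 * ((q : ℝ) * (C' * l)) := by
    rw [Finset.sum_const, Finset.card_univ, ORT_card, nsmul_eq_mul]
    have h1 : (Fintype.card Y : ℝ) ≤ q := by exact_mod_cast hY
    have h2 : C * l ≤ C' * l := mul_le_mul_of_nonneg_right hCC hl0.le
    have h3 : 0 ≤ C * l := by
      have := hS.C1
      positivity
    calc (Fintype.card Y : ℝ) * (794 * (C * l)) ≤ q * (794 * (C' * l)) := by gcongr
      _ = _ := by ring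
  have hzer : 8 / 5 * (1 / δ) ≤ ∑ χ : Y →* ℂˣ, ∑ i, (1 / (s - ρ χ i)).re := by
    have h1 : ∑ χ : Y →* ℂˣ, ∑ i, (1 / (s - ρ χ i)).re = ∑ p : Σ χ, Fin (N χ), (1 / (s - ρ p.1 p.2)).re :=
      (Fintype.sum_sigma (fun p : Σ χ, Fin (N χ) => (1 / (s - ρ p.1 p.2)).re)).symm
    rw [h1]
    have h2 : ∀ p : Σ χ, Fin (N χ), 0 ≤ (1 / (s - ρ p.1 p.2)).re := fun p => ZFA_re _ _ δ hδ0 (hdre p.1 p.2)
    have h3 : ∀ p : Σ χ, Fin (N χ), ‖1 - ρ p.1 p.2‖ ≤ η / 10 / l → 4 / 5 * (1 / δ) ≤ (1 / (s - ρ p.1 p.2)).re := by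
      intro p hp
      refine ZFA_re2 _ _ δ hδ0 (hdre p.1 p.2) ?_
      have h4 : s - ρ p.1 p.2 = ((δ : ℝ) : ℂ) + (1 - ρ p.1 p.2) := by
        rw [← hs1']
        ring
      have h5 : η / 10 / l = δ / 10 := by
        rw [hδ]
        ring
      rw [h5] at hp
      rw [h4]
      refine (norm_add_le _ _).trans ?_
      rw [Complex.norm_real, Real.norm_of_nonneg hδ0.le]
      linarith
    have h4 : ∑ p ∈ {p, p'}, (1 / (s - ρ p.1 p.2)).re ≤ ∑ p : Σ χ, Fin (N χ), (1 / (s - ρ p.1 p.2)).re :=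
      Finset.sum_le_sum_of_subset_of_nonneg (Finset.subset_univ _) fun p _ _ => h2 p
    rw [Finset.sum_pair hne] at h4
    have h5 := h3 p hp
    have h6 := h3 p' hp'
    linarith
  rw [hdl] at hsum
  have hfin : 3 / 5 * (1 / δ) ≤ 794 * ((q : ℝ) * (C' * l)) := by linarith
  have h1δ : 1 / δ = 2000 * ((q : ℝ) + 1) * C' * l := by
    rw [hδ, hη]
    field_simp
  rw [h1δ] at hfin
  have hCl : 0 < C' * l := by positivity
  nlinarith [mul_nonneg hq0 hCl.le]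

end Pool.Agent.CHE
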